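import Mathlib
import Pool.Agent.W792.GK.Stm

/-!
# Quantitative continuation
-/

set_option autoImplicit false

namespace Pool.Agent.W82.GKCont

open Metric Finset

/-- Orthogonality of roots of unity: coefficients are bounded by the mean of the values. -/
theorem coeff_le (n : ℕ) (hn : n ≠ 0) (ω : ℂ) (hω : IsPrimitiveRoot ω n) (hω1 : ‖ω‖ = 1)
    (b : ℕ → ℂ) (k : ℕ) (hk : k < n) :
    (n : ℝ) * ‖b k‖ ≤ ∑ l ∈ range n, ‖∑ j ∈ range n, b j * (ω ^ l) ^ j‖ := by
  have hω0 : ω ≠ 0 := by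
    intro h
    rw [h, norm_zero] at hω1
    exact zero_ne_one hω1
  have h1 : ∑ l ∈ range n, (∑ j ∈ range n, b j * (ω ^ l) ^ j) * ((ω ^ l)⁻¹) ^ k = n * b k := by
    have h2 : ∀ l ∈ range n, (∑ j ∈ range n, b j * (ω ^ l) ^ j) * ((ω ^ l)⁻¹) ^ k =
        ∑ j ∈ range n, b j * (ω ^ j * (ω⁻¹) ^ k) ^ l := by
      intro l _
      rw [sum_mul]
      refine sum_congr rfl fun j _ => ?_
      rw [mul_pow, mul_assoc, ← pow_mul, ← pow_mul, inv_pow, ← pow_mul, inv_pow, inv_pow,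
        ← pow_mul, mul_comm l j, mul_comm l k]
    rw [sum_congr rfl h2, sum_comm]
    have h3 : ∀ j ∈ range n, ∑ l ∈ range n, b j * (ω ^ j * (ω⁻¹) ^ k) ^ l =
        if j = k then (n : ℂ) * b k else 0 := by
      intro j hj
      rw [← mul_sum]
      by_cases hjk : j = k
      · rw [if_pos hjk, hjk]
        have h4 : ω ^ k * (ω⁻¹) ^ k = 1 := by
          rw [← mul_pow, mul_inv_cancel₀ hω0, one_pow]
        rw [h4]
        simp [mul_comm]
      · rw [if_neg hjk]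
        have hx : ω ^ j * (ω⁻¹) ^ k ≠ 1 := by
          intro h4
          rw [inv_pow, ← div_eq_mul_inv, div_eq_one_iff_eq (pow_ne_zero _ hω0)] at h4
          exact hjk (hω.pow_inj (mem_range.mp hj) hk h4)
        have hxn : (ω ^ j * (ω⁻¹) ^ k) ^ n = 1 := by
          rw [mul_pow, ← pow_mul, ← pow_mul, mul_comm j n, mul_comm k n, pow_mul, pow_mul,
            hω.pow_eq_one, inv_pow, hω.pow_eq_one, one_pow, inv_one, one_pow, one_mul]
        have h5 := mul_geom_sum (ω ^ j * (ω⁻¹) ^ k) n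
        rw [hxn, sub_self] at h5
        have h6 : ∑ l ∈ range n, (ω ^ j * (ω⁻¹) ^ k) ^ l = 0 := by
          rcases mul_eq_zero.mp h5 with h7 | h7
          · exact absurd (sub_eq_zero.mp h7) hx
          · exact h7
        rw [h6, mul_zero]
    rw [sum_congr rfl h3, sum_ite_eq', if_pos (mem_range.mpr hk)]
  calc (n : ℝ) * ‖b k‖ = ‖(n : ℂ) * b k‖ := by rw [norm_mul, Complex.norm_natCast]
    _ = ‖∑ l ∈ range n, (∑ j ∈ range n, b j * (ω ^ l) ^ j) * ((ω ^ l)⁻¹) ^ k‖ := by rw [h1]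
    _ ≤ ∑ l ∈ range n, ‖(∑ j ∈ range n, b j * (ω ^ l) ^ j) * ((ω ^ l)⁻¹) ^ k‖ :=
      norm_sum_le _ _
    _ = ∑ l ∈ range n, ‖∑ j ∈ range n, b j * (ω ^ l) ^ j‖ := by
      refine sum_congr rfl fun l _ => ?_
      rw [norm_mul, norm_pow, norm_inv, norm_pow, hω1, one_pow, inv_one, one_pow, mul_one]

/-- Taylor coefficients of bounded analytic functions. -/
theorem taylor (z₀ : ℂ) (R Rad : ℝ) (hR : 0 < R) (hRR : R < Rad) (f : ℂ → ℂ)
    (hf : DifferentiableOn ℂ f (ball z₀ Rad)) (hf1 : ∀ z ∈ ball z₀ Rad, ‖f z‖ ≤ 1) :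
    ∃ a : ℕ → ℂ, (∀ k, ‖a k‖ ≤ 1 / R ^ k) ∧
      ∀ z ∈ ball z₀ Rad, HasSum (fun k => a k * (z - z₀) ^ k) (f z) := by
  refine ⟨fun k => ((k.factorial : ℂ))⁻¹ * iteratedDeriv k f z₀, ?_, ?_⟩
  · intro k
    have hd : DiffContOnCl ℂ f (ball z₀ R) := by
      refine ⟨hf.mono (ball_subset_ball hRR.le), ?_⟩
      rw [closure_ball z₀ hR.ne']
      exact hf.continuousOn.mono (closedBall_subset_ball hRR)
    have h1 := Complex.norm_iteratedDeriv_le_of_forall_mem_sphere_norm_le k hR hd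
      (C := 1) (fun z hz => hf1 z (by
        rw [mem_ball, mem_sphere.mp hz]
        exact hRR))
    rw [norm_mul, norm_inv, Complex.norm_natCast]
    have hk : (0 : ℝ) < k.factorial := by exact_mod_cast k.factorial_pos
    rw [inv_mul_le_iff₀ hk]
    rw [mul_one] at h1
    rw [mul_one_div]
    exact h1
  · intro z hz
    have h1 := Complex.hasSum_taylorSeries_on_ball hf hz
    refine h1.congr_fun ?_ |> fun h => h
    intro k
    simp only [smul_eq_mul]
    ring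

theorem main : Pool.Agent.W792.GK.S_CONT := by
  intro z₀ w ρ Rad hρ hρR hw ε hε
  obtain ⟨R, hR1, hR2⟩ := exists_between (max_lt hρR hw)
  have hρR' : ρ < R := (le_max_left _ _).trans_lt hR1
  have hwR' : ‖w - z₀‖ < R := (le_max_right _ _).trans_lt hR1
  have hR : 0 < R := hρ.trans hρR'
  set θ : ℝ := ‖w - z₀‖ / R with hθ
  set φ : ℝ := ρ / R with hφ
  have hθ0 : 0 ≤ θ := by positivity
  have hφ0 : 0 ≤ φ := by positivity
  have hθ1 : θ < 1 := (div_lt_one hR).mpr hwR'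
  have hφ1 : φ < 1 := (div_lt_one hR).mpr hρR'
  obtain ⟨K, hK⟩ : ∃ K : ℕ, θ ^ K / (1 - θ) ≤ ε / 2 := by
    have h1 : 0 < ε / 2 * (1 - θ) := mul_pos (by linarith) (by linarith)
    obtain ⟨K, hK⟩ := exists_pow_lt_of_lt_one h1 hθ1
    exact ⟨K, by rw [div_le_iff₀ (by linarith)]; exact hK.le⟩
  set L : ℝ := ∑ k ∈ range K, (‖w - z₀‖ / ρ) ^ k with hL
  have hL0 : 0 ≤ L := sum_nonneg fun k _ => by positivity
  obtain ⟨n, hn, hnK⟩ : ∃ n : ℕ, φ ^ n / (1 - φ) * L ≤ ε / 2 ∧ K < n := by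
    have h1 : 0 < ε / 2 * (1 - φ) / (L + 1) :=
      div_pos (mul_pos (by linarith) (by linarith)) (by linarith)
    obtain ⟨m, hm⟩ := exists_pow_lt_of_lt_one h1 hφ1
    refine ⟨m + K + 1, ?_, by omega⟩
    have h2 : φ ^ (m + K + 1) ≤ φ ^ m := pow_le_pow_of_le_one hφ0 hφ1.le (by omega)
    have h3 : φ ^ (m + K + 1) ≤ ε / 2 * (1 - φ) / (L + 1) := h2.trans hm.le
    have h4 : 0 < 1 - φ := by linarith
    rw [le_div_iff₀ (by linarith)] at h3
    rw [div_mul_eq_mul_div, div_le_iff₀ h4]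
    have h5 : 0 ≤ φ ^ (m + K + 1) := by positivity
    nlinarith
  have hn0 : n ≠ 0 := by omega
  set ω : ℂ := Complex.exp (2 * Real.pi * Complex.I / n) with hωd
  have hω : IsPrimitiveRoot ω n := Complex.isPrimitiveRoot_exp n hn0
  have hω1 : ‖ω‖ = 1 := hω.norm'_eq_one hn0
  have hinj : Set.InjOn (fun l : ℕ => z₀ + ρ * ω ^ l) (range n : Set ℕ) := by
    intro l hl l' hl' h
    have h1 : (ρ : ℂ) * ω ^ l = ρ * ω ^ l' := add_left_cancel h
    have h2 : (ρ : ℂ) ≠ 0 := by exact_mod_cast hρ.ne'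
    have h3 := mul_left_cancel₀ h2 h1
    exact hω.pow_inj (by simpa using hl) (by simpa using hl') h3
  refine ⟨(range n).image (fun l : ℕ => z₀ + ρ * ω ^ l), L, hL0, ?_, ?_⟩
  · intro ζ hζ
    obtain ⟨l, _, rfl⟩ := mem_image.mp hζ
    rw [add_sub_cancel_left, norm_mul, norm_pow, hω1, one_pow, mul_one, Complex.norm_real,
      Real.norm_of_nonneg hρ.le]
  · intro f hf hf1
    rw [sum_image hinj]
    obtain ⟨a, ha, hsum⟩ := taylor z₀ R Rad hR hR2 f hf hf1
    have tail : ∀ (z : ℂ) (t : ℝ), 0 ≤ t → t < 1 → ‖z - z₀‖ = t * R → ∀ m : ℕ,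
        ‖(∑ k ∈ range m, a k * (z - z₀) ^ k) - f z‖ ≤ t ^ m / (1 - t) := by
      intro z t ht0 ht1 hz m
      have hzb : z ∈ ball z₀ Rad := by
        rw [mem_ball, dist_eq_norm, hz]
        nlinarith
      have h1 := norm_sub_le_of_geometric_bound_of_hasSum (C := 1) ht1 (f := fun k =>
        a k * (z - z₀) ^ k) (fun k => ?_) (hsum z hzb) m
      · rw [one_mul] at h1
        exact h1
      · rw [norm_mul, norm_pow, hz, one_mul]
        calc ‖a k‖ * (t * R) ^ k ≤ (1 / R ^ k) * (t * R) ^ k :=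
              mul_le_mul_of_nonneg_right (ha k) (by positivity)
          _ = t ^ k := by rw [mul_pow]; field_simp
    set M : ℝ := ∑ l ∈ range n, ‖f (z₀ + ρ * ω ^ l)‖ with hM
    have hM0 : 0 ≤ M := sum_nonneg fun _ _ => norm_nonneg _
    set E : ℝ := φ ^ n / (1 - φ) with hE
    have hE0 : 0 ≤ E := div_nonneg (by positivity) (by linarith)
    have hcoef : ∀ k < n, ‖a k‖ * ρ ^ k ≤ M + E := by
      intro k hk
      have h1 := coeff_le n hn0 ω hω hω1 (fun j => a j * (ρ : ℂ) ^ j) k hk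
      have h2 : ∀ l ∈ range n, ‖∑ j ∈ range n, a j * (ρ : ℂ) ^ j * (ω ^ l) ^ j‖ ≤
          ‖f (z₀ + ρ * ω ^ l)‖ + E := by
        intro l _
        have h3 : ∑ j ∈ range n, a j * (ρ : ℂ) ^ j * (ω ^ l) ^ j =
            ∑ j ∈ range n, a j * ((z₀ + ρ * ω ^ l) - z₀) ^ j := by
          refine sum_congr rfl fun j _ => ?_
          rw [add_sub_cancel_left, mul_pow, mul_assoc]
        have h4 : ‖(z₀ + ρ * ω ^ l) - z₀‖ = φ * R := by
          rw [add_sub_cancel_left, norm_mul, norm_pow, hω1, one_pow, mul_one, Complex.norm_real,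
            Real.norm_of_nonneg hρ.le, hφ]
          field_simp
        have h5 := tail (z₀ + ρ * ω ^ l) φ hφ0 hφ1 h4 n
        rw [h3]
        have h6 := norm_add_le ((∑ j ∈ range n, a j * ((z₀ + ρ * ω ^ l) - z₀) ^ j)
          - f (z₀ + ρ * ω ^ l)) (f (z₀ + ρ * ω ^ l))
        rw [sub_add_cancel] at h6
        linarith
      have h7 : (n : ℝ) * (‖a k‖ * ρ ^ k) ≤ M + n * E := by
        have h8 : ‖a k * (ρ : ℂ) ^ k‖ = ‖a k‖ * ρ ^ k := by
          rw [norm_mul, norm_pow, Complex.norm_real, Real.norm_of_nonneg hρ.le]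
        rw [h8] at h1
        refine h1.trans ((sum_le_sum h2).trans ?_)
        rw [sum_add_distrib, sum_const, card_range, nsmul_eq_mul]
      have hn1 : (1 : ℝ) ≤ n := by exact_mod_cast Nat.one_le_iff_ne_zero.mpr hn0
      have h9 : (n : ℝ) * (‖a k‖ * ρ ^ k) ≤ n * (M + E) := by nlinarith
      exact le_of_mul_le_mul_left h9 (by linarith)
    have hwt : ‖w - z₀‖ = θ * R := by rw [hθ]; field_simp
    have h1 := tail w θ hθ0 hθ1 hwt K
    have h2 : ‖∑ k ∈ range K, a k * (w - z₀) ^ k‖ ≤ (M + E) * L := by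
      refine (norm_sum_le _ _).trans ?_
      rw [hL, mul_sum]
      refine sum_le_sum fun k hk => ?_
      have hk' : k < n := (mem_range.mp hk).trans hnK
      rw [norm_mul, norm_pow]
      calc ‖a k‖ * ‖w - z₀‖ ^ k = (‖a k‖ * ρ ^ k) * (‖w - z₀‖ / ρ) ^ k := by
            rw [div_pow]; field_simp
        _ ≤ (M + E) * (‖w - z₀‖ / ρ) ^ k :=
            mul_le_mul_of_nonneg_right (hcoef k hk') (by positivity)
    have h3 : ‖f w‖ ≤ ‖∑ k ∈ range K, a k * (w - z₀) ^ k‖ + θ ^ K / (1 - θ) := by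
      have h4 := norm_sub_le (∑ k ∈ range K, a k * (w - z₀) ^ k)
        ((∑ k ∈ range K, a k * (w - z₀) ^ k) - f w)
      rw [sub_sub_cancel] at h4
      linarith
    have h5 : (M + E) * L = L * M + E * L := by ring
    linarith

end Pool.Agent.W82.GKCont
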